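import Pool.Agent.H95.Nf2

set_option autoImplicit false

open CategoryTheory CategoryTheory.Limits Function Pool.Agent.H95.NfDefs

/-- An epimorphic, continuous, preimage-preserving functor on compacta (in particular every
normal functor) that is finitely square-skeletal is skeletal. -/
theorem Pool.Agent.Results.MP_7a056a_gt.Yes.result (F : Comp ⥤ Comp)
    (epi : ∀ {X Y : Comp} (f : X ⟶ Y), Surjective f → Surjective (F.map f))
    (cont : ∀ (J : Type) [PartialOrder J] [Nonempty J], (∀ i j : J, ∃ k, k ≤ i ∧ k ≤ j) →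
      ∀ K : J ⥤ Comp, (∀ (i j : J) (h : i ⟶ j), Surjective (K.map h)) → PreservesLimit K F)
    (preim : ∀ {X' Y' X Y : Comp} (g : X' ⟶ Y') (p : X' ⟶ X) (q : Y' ⟶ Y) (f : X ⟶ Y),
      p ≫ f = g ≫ q → Injective f → Injective g → Bicomm g p q f →
        Bicomm (F.map g) (F.map p) (F.map q) (F.map f))
    (fss : ∀ {X' Y' X Y : Comp} (g : X' ⟶ Y') (p : X' ⟶ X) (q : Y' ⟶ Y) (f : X ⟶ Y),
      Finite X' → Finite Y' → Finite X → Finite Y → Surjective g → Surjective p →
      Surjective q → Surjective f → p ≫ f = g ≫ q → SkelSq g p q f →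
        SkelSq (F.map g) (F.map p) (F.map q) (F.map f)) :
    Skeletal F :=
  Pool.Agent.H95.Nf2.main fss epi preim fun _ => cont _
    (fun i j => ⟨i ⊓ j, inf_le_left, inf_le_right⟩) _ fun _ _ h => Pool.Agent.H95.Nf2.ol_surj h.le
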